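import Mathlib

/-! Expansion of a product of factors `u^L V - mu(u)` under a linear functional. -/

set_option autoImplicit false

namespace Pool.Agent.P.MP_f981b0_an.IS77

open Polynomial

variable {R : Type*} [CommRing R] [Algebra ℂ R]

theorem one_step (u r : R) (ψ : R →ₗ[ℂ] ℂ) (B : ℝ) (h : ∀ k : ℕ, ‖ψ (u ^ k * r)‖ ≤ B)
    (μ : ℂ[X]) (k : ℕ) :
    ‖ψ (u ^ k * (aeval u μ * r))‖ ≤ (∑ i ∈ μ.support, ‖μ.coeff i‖) * B := by
  have e : u ^ k * (aeval u μ * r) = ∑ i ∈ μ.support, μ.coeff i • (u ^ (k + i) * r) := by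
    rw [aeval_def, eval₂_eq_sum, Polynomial.sum, Finset.sum_mul, Finset.mul_sum]
    exact Finset.sum_congr rfl fun i _ => by
      rw [Algebra.smul_def]; ring
  rw [e, map_sum, Finset.sum_mul]
  refine (norm_sum_le _ _).trans (Finset.sum_le_sum fun i _ => ?_)
  rw [map_smul, norm_smul]
  exact mul_le_mul_of_nonneg_left (h _) (norm_nonneg _)

theorem expand (u V : R) (ψ : R →ₗ[ℂ] ℂ) (ρ dd c : ℝ) (L n : ℕ) (hdd : 0 ≤ dd) (hρ : 0 ≤ ρ)
    (hc : 0 ≤ c) (h : ∀ k i : ℕ, i ≤ n → ‖ψ (u ^ k * V ^ i)‖ ≤ c * dd ^ (n - i))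
    (m : Multiset ℂ[X]) (hm : ∀ μ ∈ m, ∑ i ∈ μ.support, ‖μ.coeff i‖ ≤ ρ) :
    ∀ k i : ℕ, i + m.card ≤ n →
      ‖ψ (u ^ k * (V ^ i * (m.map fun μ => u ^ L * V - aeval u μ).prod)) -
        ψ (u ^ (k + m.card * L) * V ^ (i + m.card))‖ ≤
        c * dd ^ (n - (i + m.card)) * ((1 + ρ * dd) ^ m.card - 1) := by
  induction m using Multiset.induction_on with
  | empty => intro k i _; simp
  | cons μ m ih =>
    intro k i hi
    have ih' := ih fun ν hν => hm ν (Multiset.mem_cons_of_mem hν)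
    rw [Multiset.card_cons] at hi ⊢
    rw [Multiset.map_cons, Multiset.prod_cons]
    set P := (m.map fun μ => u ^ L * V - aeval u μ).prod with hP
    have hb : ∀ k : ℕ, ‖ψ (u ^ k * (V ^ i * P))‖ ≤
        c * dd ^ (n - (i + m.card)) * (1 + ρ * dd) ^ m.card := fun k => by
      have h1 := ih' k i (by omega)
      have h2 := h (k + m.card * L) (i + m.card) (by omega)
      have h3 := norm_add_le (ψ (u ^ k * (V ^ i * P)) -
        ψ (u ^ (k + m.card * L) * V ^ (i + m.card))) (ψ (u ^ (k + m.card * L) * V ^ (i + m.card)))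
      rw [sub_add_cancel] at h3
      linarith
    have h1 := ih' (k + L) (i + 1) (by omega)
    have h2 := one_step u (V ^ i * P) ψ _ hb μ k
    have hpos : 0 ≤ c * dd ^ (n - (i + m.card)) * (1 + ρ * dd) ^ m.card := by positivity
    have h3 := mul_le_mul_of_nonneg_right (hm μ (Multiset.mem_cons_self _ _)) hpos
    have e : ψ (u ^ k * (V ^ i * ((u ^ L * V - aeval u μ) * P))) -
        ψ (u ^ (k + (m.card + 1) * L) * V ^ (i + (m.card + 1))) =
        (ψ (u ^ (k + L) * (V ^ (i + 1) * P)) -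
          ψ (u ^ (k + L + m.card * L) * V ^ (i + 1 + m.card))) -
        ψ (u ^ k * (aeval u μ * (V ^ i * P))) := by
      rw [← map_sub, ← map_sub, ← map_sub]
      congr 1
      ring
    rw [e]
    refine (norm_sub_le _ _).trans ?_
    have e1 : n - (i + 1 + m.card) = n - (i + (m.card + 1)) := by omega
    have e2 : n - (i + m.card) = n - (i + (m.card + 1)) + 1 := by omega
    rw [e1] at h1
    rw [e2] at h2 h3
    calc _ ≤ c * dd ^ (n - (i + (m.card + 1))) * ((1 + ρ * dd) ^ m.card - 1) +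
          ρ * (c * dd ^ (n - (i + (m.card + 1)) + 1) * (1 + ρ * dd) ^ m.card) :=
          add_le_add h1 (h2.trans h3)
      _ = _ := by ring

/-- The main term of the product is `(1 - u) u^(k + J L) V^J`. -/
theorem perk {ι : Type*} (u V : R) (φ : R →ₗ[ℂ] ℂ) (s : Finset ι) (mu : ι → ℂ[X]) (mu0 : ℂ[X])
    (ρ dd c1 c2 : ℝ) (τ : ℂ) (L J : ℕ) (hJ : J = s.card + 1) (hdd : 0 ≤ dd) (hc1 : 0 ≤ c1)
    (hc2 : 0 ≤ c2) (h0 : ∑ i ∈ mu0.support, ‖mu0.coeff i‖ ≤ ρ)
    (hs : ∀ q ∈ s, ∑ i ∈ (mu q).support, ‖(mu q).coeff i‖ ≤ ρ)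
    (h1 : ∀ k i : ℕ, i ≤ J → ‖φ ((1 - u) * u ^ k * V ^ i)‖ ≤ c1 * dd ^ (J - i))
    (h2 : ∀ k i : ℕ, i < J → ‖φ (u ^ k * V ^ i)‖ ≤ c2 * dd ^ (J - i)) (k : ℕ) :
    ‖φ (u ^ k * ((1 - u) * (u ^ L * V - aeval u mu0) - τ • u ^ L) *
        ∏ q ∈ s, (u ^ L * V - aeval u (mu q))) - φ ((1 - u) * u ^ (k + J * L) * V ^ J)‖ ≤
      c1 * ((1 + ρ * dd) ^ J - 1) + ‖τ‖ * (c2 * dd * (1 + ρ * dd) ^ (J - 1)) := by
  have hρ : 0 ≤ ρ := (Finset.sum_nonneg fun i _ => norm_nonneg _).trans h0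
  have hm : ∀ μ ∈ s.val.map mu, ∑ i ∈ μ.support, ‖μ.coeff i‖ ≤ ρ := fun μ hμ => by
    obtain ⟨q, hq, rfl⟩ := Multiset.mem_map.1 hμ
    exact hs q hq
  have hP : ((s.val.map mu).map fun μ => u ^ L * V - aeval u μ).prod =
      ∏ q ∈ s, (u ^ L * V - aeval u (mu q)) := by
    rw [Multiset.map_map]; rfl
  have hcard : (s.val.map mu).card = s.card := by rw [Multiset.card_map]; rfl
  have a1 := expand u V (φ ∘ₗ LinearMap.mulLeft ℂ (1 - u)) ρ dd c1 L J hdd hρ hc1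
    (fun k i hi => by simpa [mul_assoc] using h1 k i hi) (mu0 ::ₘ s.val.map mu)
    (fun μ hμ => by
      rcases Multiset.mem_cons.1 hμ with rfl | hμ
      exacts [h0, hm μ hμ]) k 0 (by rw [Multiset.card_cons, hcard]; omega)
  have hb : ∀ k i : ℕ, i ≤ s.card → ‖φ (u ^ k * V ^ i)‖ ≤ c2 * dd * dd ^ (s.card - i) :=
    fun k i hi => by
      have := h2 k i (by omega)
      rwa [show J - i = s.card - i + 1 by omega, pow_succ, mul_comm (dd ^ _), ← mul_assoc] at this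
  have a2 := expand u V φ ρ dd (c2 * dd) L s.card hdd hρ (by positivity) hb (s.val.map mu) hm
    (k + L) 0 (by rw [hcard]; omega)
  have a3 := hb (k + L + s.card * L) s.card le_rfl
  rw [Multiset.map_cons, Multiset.prod_cons, hP, Multiset.card_cons, hcard, ← hJ] at a1
  rw [hP, hcard] at a2
  simp only [zero_add, Nat.sub_self, pow_zero, mul_one, one_mul, LinearMap.comp_apply,
    LinearMap.mulLeft_apply] at a1 a2 a3
  set P := ∏ q ∈ s, (u ^ L * V - aeval u (mu q)) with hPdef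
  have a4 : ‖φ (u ^ (k + L) * P)‖ ≤ c2 * dd * (1 + ρ * dd) ^ (J - 1) := by
    have h3 := norm_add_le (φ (u ^ (k + L) * P) - φ (u ^ (k + L + s.card * L) * V ^ s.card))
      (φ (u ^ (k + L + s.card * L) * V ^ s.card))
    rw [sub_add_cancel] at h3
    rw [show J - 1 = s.card by omega]
    linarith
  have e : φ (u ^ k * ((1 - u) * (u ^ L * V - aeval u mu0) - τ • u ^ L) * P) -
      φ ((1 - u) * u ^ (k + J * L) * V ^ J) =
      (φ ((1 - u) * (u ^ k * ((u ^ L * V - aeval u mu0) * P))) -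
        φ ((1 - u) * (u ^ (k + J * L) * V ^ J))) - τ • φ (u ^ (k + L) * P) := by
    rw [← map_smul, ← map_sub, ← map_sub, ← map_sub]
    congr 1
    simp only [Algebra.smul_def]
    ring
  rw [e]
  refine (norm_sub_le _ _).trans (add_le_add a1 ?_)
  rw [norm_smul]
  exact mul_le_mul_of_nonneg_left a4 (norm_nonneg _)

/-- A convenient bound for the first error term. -/
theorem pow_sub_one_le {x : ℝ} {J : ℕ} (hx : 0 ≤ x) (h : x * J ≤ 1 / 2) :
    (1 + x) ^ J ≤ 1 + 2 * (x * J) := by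
  induction J with
  | zero => simp
  | succ n ih =>
    push_cast at h ⊢
    have h1 : x * n ≤ 1 / 2 := by nlinarith
    have h2 := ih h1
    have h3 : 0 ≤ x * n := by positivity
    rw [pow_succ]
    nlinarith [mul_le_mul_of_nonneg_right h2 (by positivity : (0 : ℝ) ≤ 1 + x)]

end Pool.Agent.P.MP_f981b0_an.IS77
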